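import Mathlib

namespace Pool.Agent.Results.MP_c5a493_nt.UniformBound

section

open MeasureTheory Metric Set

/-- A set of large measure contains many separated points. -/
theorem exists_sep {A : Set ℝ} {l : ℝ} (hl : 0 < l) (m : ℕ)
    (h : ENNReal.ofReal (2 * m * l) < volume A) :
    ∀ j ≤ m + 1, ∃ s : Finset ℝ, s.card = j ∧ (s : Set ℝ) ⊆ A ∧
      ∀ a ∈ s, ∀ b ∈ s, a ≠ b → l ≤ |a - b| := by
  intro j
  induction j with
  | zero =>
    intro _
    exact ⟨∅, rfl, by simp, by simp⟩
  | succ j ih =>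
    intro hj
    obtain ⟨s, hc, hs, hsep⟩ := ih (by omega)
    have h1 : ¬ A ⊆ ⋃ a ∈ s, ball a l := by
      intro hsub
      have h2 : volume A ≤ ENNReal.ofReal (2 * m * l) := by
        calc volume A ≤ volume (⋃ a ∈ s, ball a l) := measure_mono hsub
          _ ≤ ∑ a ∈ s, volume (ball a l) := measure_biUnion_finset_le _ _
          _ = ∑ a ∈ s, ENNReal.ofReal (2 * l) := by simp [Real.volume_ball]
          _ = ENNReal.ofReal (j * (2 * l)) := by
            rw [Finset.sum_const, hc, nsmul_eq_mul, ENNReal.ofReal_mul (by positivity)]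
            simp
          _ ≤ ENNReal.ofReal (2 * m * l) := by
            apply ENNReal.ofReal_le_ofReal
            have : (j : ℝ) ≤ m := by exact_mod_cast (by omega : j ≤ m)
            nlinarith
      exact absurd h (not_lt.2 h2)
    rw [Set.not_subset] at h1
    obtain ⟨z, hzA, hz⟩ := h1
    simp only [mem_iUnion, mem_ball, Real.dist_eq, exists_prop, not_exists, not_and, not_lt] at hz
    have hzs : z ∉ s := by
      intro hh
      have := hz z hh
      simp at this
      linarith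
    refine ⟨insert z s, by rw [Finset.card_insert_of_notMem hzs, hc], ?_, ?_⟩
    · rw [Finset.coe_insert]
      exact Set.insert_subset hzA hs
    · intro a ha b hb hab
      rcases Finset.mem_insert.1 ha with ha1 | ha1 <;>
        rcases Finset.mem_insert.1 hb with hb1 | hb1
      · exact absurd (ha1.trans hb1.symm) hab
      · rw [ha1]; exact hz b hb1
      · rw [hb1, abs_sub_comm]; exact hz a ha1
      · exact hsep a ha1 b hb1 hab

open Polynomial in
/-- Lagrange bound. -/
theorem lagrange_bound {n : ℕ} {p : ℝ[X]} (hp : p.natDegree ≤ n) {s : Finset ℝ}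
    (hs : s.card = n + 1) {l D e : ℝ} (hl : 0 < l) (hD : 0 < D) (he : 0 < e)
    (hsep : ∀ a ∈ s, ∀ b ∈ s, a ≠ b → l ≤ |a - b|) (hv : ∀ a ∈ s, |p.eval a| < e)
    {y : ℝ} (hy : ∀ a ∈ s, |y - a| ≤ D) : |p.eval y| < (n + 1) * (e * (D / l) ^ n) := by
  have hdeg : p.degree < s.card := by
    rw [hs]
    refine lt_of_le_of_lt Polynomial.degree_le_natDegree ?_
    exact_mod_cast Nat.lt_succ_of_le hp
  have h1 := Lagrange.eq_interpolate (v := id) (s := s) (f := p) (by simp) hdeg
  have h2 : p.eval y = ∑ i ∈ s, p.eval i * ∏ j ∈ s.erase i, ((i - j)⁻¹ * (y - j)) := by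
    conv_lhs => rw [h1]
    simp only [Lagrange.interpolate_apply, eval_finsetSum, eval_mul, eval_C, Lagrange.basis,
      eval_prod, Lagrange.basisDivisor, eval_sub, eval_X, id]
  have h3 : ∀ i ∈ s, |p.eval i * ∏ j ∈ s.erase i, ((i - j)⁻¹ * (y - j))| < e * (D / l) ^ n := by
    intro i hi
    rw [abs_mul]
    have h4 : |∏ j ∈ s.erase i, ((i - j)⁻¹ * (y - j))| ≤ (D / l) ^ n := by
      rw [Finset.abs_prod]
      have h5 : (s.erase i).card = n := by rw [Finset.card_erase_of_mem hi, hs]; rfl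
      rw [← h5, ← Finset.prod_const]
      refine Finset.prod_le_prod (fun j _ => abs_nonneg _) ?_
      intro j hj
      have hj' := Finset.mem_erase.1 hj
      rw [abs_mul, abs_inv, div_eq_mul_inv, mul_comm]
      have a1 := hsep i hi j hj'.2 hj'.1.symm
      have a2 := hy j hj'.2
      exact mul_le_mul a2 (inv_anti₀ hl a1) (by positivity) hD.le
    have h6 : 0 < (D / l) ^ n := by positivity
    calc |p.eval i| * |∏ j ∈ s.erase i, ((i - j)⁻¹ * (y - j))|
        ≤ |p.eval i| * (D / l) ^ n := mul_le_mul_of_nonneg_left h4 (abs_nonneg _)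
      _ < e * (D / l) ^ n := mul_lt_mul_of_pos_right (hv i hi) h6
  rw [h2]
  have hne : s.Nonempty := by
    rw [← Finset.card_pos, hs]; omega
  calc |∑ i ∈ s, p.eval i * ∏ j ∈ s.erase i, ((i - j)⁻¹ * (y - j))|
      ≤ ∑ i ∈ s, |p.eval i * ∏ j ∈ s.erase i, ((i - j)⁻¹ * (y - j))| :=
        Finset.abs_sum_le_sum_abs _ _
    _ < ∑ i ∈ s, (e * (D / l) ^ n) := Finset.sum_lt_sum_of_nonempty hne h3
    _ = (n + 1) * (e * (D / l) ^ n) := by
      rw [Finset.sum_const, hs, nsmul_eq_mul]; push_cast; ring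

open Polynomial in
/-- sublevel sets of polynomials on a ball -/
theorem good_poly {n : ℕ} (hn : 1 ≤ n) {p : ℝ[X]} (hp : p.natDegree ≤ n) {x R e y : ℝ}
    (hR : 0 < R) (he : 0 < e) (hy : y ∈ ball x R) (h1 : 1 ≤ |p.eval y|) :
    volume {z ∈ ball x R | |p.eval z| < e} ≤
      ENNReal.ofReal (4 * n * ((n + 1) * e) ^ ((1 : ℝ) / n) * R) := by
  by_contra hc
  push Not at hc
  set l : ℝ := ((n + 1) * e) ^ ((1 : ℝ) / n) * (2 * R) with hl
  have hlpos : 0 < l := by positivity
  have hc2 : ENNReal.ofReal (2 * n * l) < volume {z ∈ ball x R | |p.eval z| < e} := by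
    refine lt_of_eq_of_lt ?_ hc
    congr 1
    rw [hl]; ring
  obtain ⟨s, hs, hsA, hsep⟩ := exists_sep hlpos n hc2 (n + 1) le_rfl
  have h2 : |p.eval y| < (n + 1) * (e * ((2 * R) / l) ^ n) := by
    refine lagrange_bound hp hs hlpos (by positivity) he hsep (fun a ha => (hsA ha).2) ?_
    intro a ha
    have h3 := (hsA ha).1
    rw [mem_ball, Real.dist_eq] at h3 hy
    have : |y - a| ≤ |y - x| + |a - x| := by
      calc |y - a| = |(y - x) - (a - x)| := by ring_nf
        _ ≤ |y - x| + |a - x| := abs_sub _ _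
    linarith
  have hq : (2 * R) / l = (((n + 1) * e) ^ ((1 : ℝ) / n))⁻¹ := by
    rw [hl]
    field_simp
  have hn0 : (n : ℝ) ≠ 0 := by positivity
  have h4 : ((((n : ℝ) + 1) * e) ^ ((1 : ℝ) / n)) ^ n = (n + 1) * e := by
    rw [← Real.rpow_natCast, ← Real.rpow_mul (by positivity)]
    rw [one_div, inv_mul_cancel₀ hn0, Real.rpow_one]
  rw [hq, inv_pow, h4] at h2
  have h5 : ((n : ℝ) + 1) * (e * (((n : ℝ) + 1) * e)⁻¹) = 1 := by
    field_simp
  rw [h5] at h2
  linarith

/-! ## Abstract nondivergence -/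

section poset

variable {P : Type*} [PartialOrder P] (ψ : P → ℝ → ℝ) (ε : ℝ)

/-- marked points -/
def Marked (S : Set P) (y : ℝ) : Prop :=
  ∃ F : Finset P, (F : Set P) ⊆ S ∧ IsChain (· ≤ ·) (F : Set P) ∧
    (∀ s ∈ F, ε ≤ ψ s y ∧ ψ s y ≤ 1) ∧
    ∀ s ∈ S, s ∉ F → (∀ f ∈ F, s ≤ f ∨ f ≤ s) → 1 ≤ ψ s y

/-- the constants -/
def kap : ℕ → ℝ
  | 0 => 0
  | m + 1 => 12 * (kap m + 1)

theorem kap_nonneg (m : ℕ) : 0 ≤ kap m := by
  induction m with
  | zero => exact le_rfl
  | succ m ih => simp only [kap]; linarith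

theorem kap_le (m : ℕ) : kap m ≤ 2 * 12 ^ m - 2 := by
  induction m with
  | zero => simp [kap]
  | succ m ih =>
    simp only [kap]
    have : (12 : ℝ) ^ (m + 1) = 12 * 12 ^ m := by ring
    rw [this]
    linarith

open Classical in
theorem nondiv {g : ℝ} (hg : 0 ≤ g) (hcont : ∀ s, Continuous (ψ s))
    (hgood : ∀ s x R, 0 < R → (∃ y ∈ ball x R, 1 ≤ ψ s y) →
      volume {z ∈ ball x R | ψ s z < ε} ≤ ENNReal.ofReal (g * R)) :
    ∀ (m : ℕ) (S : Set P),
      (∀ F : Finset P, (F : Set P) ⊆ S → IsChain (· ≤ ·) (F : Set P) → F.card ≤ m) →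
      ∀ c r : ℝ, 0 < r → (∀ s ∈ S, ∃ y ∈ ball c r, 1 ≤ ψ s y) →
        volume {x ∈ ball c r | ¬ Marked ψ ε S x} ≤ ENNReal.ofReal (kap m * g * r) := by
  intro m
  induction m with
  | zero =>
    intro S hS c r hr _
    have hemp : {x ∈ ball c r | ¬ Marked ψ ε S x} = ∅ := by
      rw [Set.eq_empty_iff_forall_notMem]
      rintro x ⟨_, hx⟩
      apply hx
      refine ⟨∅, by simp, by simp, by simp, ?_⟩
      intro s hs
      exfalso
      have := hS {s} (by simpa using hs) (by simp)
      simp at this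
    rw [hemp]
    simp
  | succ m ih =>
    intro S hS c r hr hA2
    set E := {x ∈ ball c r | ¬ Marked ψ ε S x} with hE
    -- choice of radius
    have hsel : ∀ x ∈ E, ∃ R s, s ∈ S ∧ 0 < R ∧ R ≤ 2 * r ∧ (∀ z ∈ ball x R, ψ s z < 1) ∧
        ∀ s' ∈ S, ∃ y ∈ ball x (2 * R), 1 ≤ ψ s' y := by
      rintro x ⟨hxb, hx⟩
      have h0 : ∃ s ∈ S, ψ s x < 1 := by
        by_contra! hc
        apply hx
        refine ⟨∅, by simp, by simp, by simp, ?_⟩
        intro s hs _ _
        exact hc s hs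
      let A : Set ℝ := {R | 0 < R ∧ ∃ s ∈ S, ∀ z ∈ ball x R, ψ s z < 1}
      have hAne : A.Nonempty := by
        obtain ⟨s, hs, hsx⟩ := h0
        have hopen : IsOpen {z | ψ s z < 1} := isOpen_lt (hcont s) continuous_const
        obtain ⟨R, hR, hsub⟩ := Metric.isOpen_iff.1 hopen x hsx
        exact ⟨R, hR, s, hs, fun z hz => hsub hz⟩
      have hAbd : ∀ R ∈ A, R ≤ 2 * r := by
        rintro R ⟨hR, s, hs, hR2⟩
        by_contra! hc
        obtain ⟨y, hy, hy1⟩ := hA2 s hs
        have : y ∈ ball x R := by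
          rw [mem_ball] at hy hxb ⊢
          calc dist y x ≤ dist y c + dist x c := dist_triangle_right _ _ _
            _ < R := by linarith
        exact absurd hy1 (not_le.2 (hR2 y this))
      have hsup : 0 < sSup A := by
        obtain ⟨R, hR⟩ := hAne
        exact lt_of_lt_of_le hR.1 (le_csSup ⟨2 * r, hAbd⟩ hR)
      obtain ⟨R, hRA, hR⟩ := exists_lt_of_lt_csSup hAne (half_lt_self hsup)
      obtain ⟨hR0, s, hs, hRs⟩ := hRA
      refine ⟨R, s, hs, hR0, hAbd R ⟨hR0, s, hs, hRs⟩, hRs, ?_⟩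
      intro s' hs'
      by_contra! hc
      have : 2 * R ∈ A := ⟨by linarith, s', hs', hc⟩
      have := le_csSup ⟨2 * r, hAbd⟩ this
      linarith
    rcases Set.eq_empty_or_nonempty E with hEe | ⟨x0, hx0⟩
    · rw [hEe]; simp
    have hPne : Nonempty P := by
      obtain ⟨_, s0, _⟩ := hsel x0 hx0
      exact ⟨s0⟩
    choose! R s hsS hR0 hR2 hlt hge using hsel
    -- local estimate
    have hloc : ∀ x ∈ E, volume (E ∩ ball x (R x)) ≤
        ENNReal.ofReal (2 * (kap m + 1) * g * R x) := by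
      intro x hx
      set S'' : Set P := {t ∈ S | t ≠ s x ∧ (t ≤ s x ∨ s x ≤ t)} with hS''
      have hchain : ∀ F : Finset P, (F : Set P) ⊆ S'' → IsChain (· ≤ ·) (F : Set P) →
          F.card ≤ m := by
        intro F hF hch
        have hnot : s x ∉ F := fun hh => (hF hh).2.1 rfl
        have h1 := hS (insert (s x) F) (by
          rw [Finset.coe_insert]
          exact Set.insert_subset (hsS x hx) fun t ht => (hF ht).1) (by
          rw [Finset.coe_insert]
          refine hch.insert ?_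
          intro b hb _
          exact (hF hb).2.2.symm)
        rw [Finset.card_insert_of_notMem hnot] at h1
        omega
      have h1 := ih S'' hchain x (2 * R x) (by have := hR0 x hx; linarith)
        (fun t ht => hge x hx t ht.1)
      have h2 := hgood (s x) x (2 * R x) (by have := hR0 x hx; linarith)
        (hge x hx (s x) (hsS x hx))
      have hsub : E ∩ ball x (R x) ⊆ {y ∈ ball x (2 * R x) | ¬ Marked ψ ε S'' y} ∪
          {z ∈ ball x (2 * R x) | ψ (s x) z < ε} := by
        rintro y ⟨hyE, hyb⟩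
        have hyb2 : y ∈ ball x (2 * R x) := by
          have := hR0 x hx
          rw [mem_ball] at hyb ⊢
          linarith
        by_cases hlt2 : ψ (s x) y < ε
        · exact Or.inr ⟨hyb2, hlt2⟩
        · left
          refine ⟨hyb2, ?_⟩
          rintro ⟨F, hF, hch, hM, hM3⟩
          apply hyE.2
          refine ⟨insert (s x) F, ?_, ?_, ?_, ?_⟩
          · rw [Finset.coe_insert]
            exact Set.insert_subset (hsS x hx) fun t ht => (hF ht).1
          · rw [Finset.coe_insert]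
            refine hch.insert ?_
            intro b hb _
            exact (hF hb).2.2.symm
          · intro t ht
            rcases Finset.mem_insert.1 ht with rfl | ht
            · exact ⟨not_lt.1 hlt2, (hlt x hx y hyb).le⟩
            · exact hM t ht
          · intro t ht htF hcomp
            rw [Finset.mem_insert, not_or] at htF
            refine hM3 t ⟨ht, htF.1, ?_⟩ htF.2 ?_
            · exact hcomp (s x) (Finset.mem_insert_self _ _)
            · intro f hf
              exact hcomp f (Finset.mem_insert_of_mem hf)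
      calc volume (E ∩ ball x (R x)) ≤ volume ({y ∈ ball x (2 * R x) | ¬ Marked ψ ε S'' y} ∪
          {z ∈ ball x (2 * R x) | ψ (s x) z < ε}) := measure_mono hsub
        _ ≤ volume {y ∈ ball x (2 * R x) | ¬ Marked ψ ε S'' y} +
          volume {z ∈ ball x (2 * R x) | ψ (s x) z < ε} := measure_union_le _ _
        _ ≤ ENNReal.ofReal (kap m * g * (2 * R x)) + ENNReal.ofReal (g * (2 * R x)) :=
          add_le_add h1 h2
        _ = ENNReal.ofReal (2 * (kap m + 1) * g * R x) := by
          have := hR0 x hx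
          have := kap_nonneg m
          rw [← ENNReal.ofReal_add (by positivity) (by positivity)]
          congr 1; ring
    -- covering
    obtain ⟨u, huE, hud, hucov⟩ := Vitali.exists_disjoint_subfamily_covering_enlargement_ball
      E id (fun x => R x / 4) (r / 2) (fun x hx => by have := hR2 x hx; linarith) 4 (by norm_num)
    have hucount : u.Countable := by
      refine hud.countable_of_nonempty_interior ?_
      intro x hx
      rw [isOpen_ball.interior_eq]
      exact ⟨x, mem_ball_self (by have := hR0 x (huE hx); linarith)⟩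
    have hcover : E ⊆ ⋃ b ∈ u, E ∩ ball b (R b) := by
      intro x hx
      obtain ⟨b, hb, hbs⟩ := hucov x hx
      have h1 : x ∈ ball (id b) (4 * (R b / 4)) :=
        hbs (mem_ball_self (by have := hR0 x hx; linarith))
      have h2 : 4 * (R b / 4) = R b := by ring
      rw [h2] at h1
      simp only [mem_iUnion]
      exact ⟨b, hb, hx, h1⟩
    have hsum : ∑' b : u, ENNReal.ofReal (R b / 2) ≤ ENNReal.ofReal (3 * r) := by
      have h1 : volume (⋃ b ∈ u, ball b (R b / 4)) = ∑' b : u, volume (ball (b : ℝ) (R b / 4)) :=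
        measure_biUnion hucount hud fun b _ => measurableSet_ball
      have h2 : volume (⋃ b ∈ u, ball b (R b / 4)) ≤ volume (ball c (3 / 2 * r)) := by
        apply measure_mono
        intro z hz
        simp only [mem_iUnion] at hz
        obtain ⟨b, hb, hz⟩ := hz
        have hbE := huE hb
        have hbr := hR2 b hbE
        have hbc := hbE.1
        rw [mem_ball] at hz hbc ⊢
        calc dist z c ≤ dist z b + dist b c := dist_triangle _ _ _
          _ < 3 / 2 * r := by linarith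
      rw [h1, Real.volume_ball] at h2
      calc ∑' b : u, ENNReal.ofReal (R b / 2) = ∑' b : u, volume (ball (b : ℝ) (R b / 4)) := by
            congr 1; funext b; rw [Real.volume_ball]; congr 1; ring
        _ ≤ ENNReal.ofReal (2 * (3 / 2 * r)) := h2
        _ = ENNReal.ofReal (3 * r) := by congr 1; ring
    have hk := kap_nonneg m
    calc volume E ≤ volume (⋃ b ∈ u, E ∩ ball b (R b)) := measure_mono hcover
      _ ≤ ∑' b : u, volume (E ∩ ball (b : ℝ) (R b)) := measure_biUnion_le _ hucount _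
      _ ≤ ∑' b : u, ENNReal.ofReal (4 * (kap m + 1) * g) * ENNReal.ofReal (R b / 2) := by
        refine ENNReal.tsum_le_tsum fun b => ?_
        refine (hloc b (huE b.2)).trans (le_of_eq ?_)
        rw [← ENNReal.ofReal_mul (by positivity)]
        congr 1; ring
      _ = ENNReal.ofReal (4 * (kap m + 1) * g) * ∑' b : u, ENNReal.ofReal (R b / 2) :=
        ENNReal.tsum_mul_left
      _ ≤ ENNReal.ofReal (4 * (kap m + 1) * g) * ENNReal.ofReal (3 * r) := by gcongr
      _ = ENNReal.ofReal (kap (m + 1) * g * r) := by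
        rw [← ENNReal.ofReal_mul (by positivity)]
        congr 1
        simp only [kap]; ring

end poset

end

section

open MeasureTheory Metric Set Polynomial Matrix

section tuples

variable {n : ℕ} (A b : ℝ)

/-- the scaled vector attached to an integer polynomial -/
def hv (x : ℝ) (a : Fin (n + 1) → ℤ) : Fin (n + 1) → ℝ := fun i =>
  if i = 0 then A * ∑ j, (a j : ℝ) * x ^ (j : ℕ) else b * (a i : ℝ)

/-- the polynomial entries -/
noncomputable def Hp (a : Fin (n + 1) → ℤ) (i : Fin (n + 1)) : ℝ[X] :=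
  if i = 0 then C A * ∑ j, C (a j : ℝ) * X ^ (j : ℕ) else C (b * (a i : ℝ))

theorem eval_Hp (x : ℝ) (a : Fin (n + 1) → ℤ) (i : Fin (n + 1)) :
    (Hp A b a i).eval x = hv A b x a i := by
  unfold Hp hv
  split_ifs
  · simp [eval_finsetSum]
  · simp

/-- minors as polynomials -/
noncomputable def mp {j : ℕ} (w : Fin j → Fin (n + 1) → ℤ) (I : Fin j → Fin (n + 1)) : ℝ[X] :=
  (Matrix.of fun l c => Hp A b (w l) (I c)).det

theorem eval_mp (x : ℝ) {j : ℕ} (w : Fin j → Fin (n + 1) → ℤ) (I : Fin j → Fin (n + 1)) :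
    (mp A b w I).eval x = (Matrix.of fun l c => hv A b x (w l) (I c)).det := by
  unfold mp
  have h := (Polynomial.evalRingHom x).map_det (Matrix.of fun l c => Hp A b (w l) (I c))
  rw [Polynomial.coe_evalRingHom] at h
  rw [h]
  congr 1
  ext l c
  simp [eval_Hp]

theorem natDegree_Hp (a : Fin (n + 1) → ℤ) (i : Fin (n + 1)) :
    (Hp A b a i).natDegree ≤ if i = 0 then n else 0 := by
  unfold Hp
  split_ifs
  · refine (natDegree_C_mul_le _ _).trans ?_
    refine natDegree_sum_le_of_forall_le _ _ fun j _ => ?_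
    refine (natDegree_C_mul_X_pow_le _ _).trans ?_
    omega
  · exact (natDegree_C _).le

theorem natDegree_mp {j : ℕ} (w : Fin j → Fin (n + 1) → ℤ) (I : Fin j → Fin (n + 1)) :
    (mp A b w I).natDegree ≤ n := by
  by_cases hI : Function.Injective I
  · unfold mp
    rw [Matrix.det_apply]
    refine natDegree_sum_le_of_forall_le _ _ fun σ _ => ?_
    have h1 : (Equiv.Perm.sign σ • ∏ c, (Matrix.of fun l c => Hp A b (w l) (I c)) (σ c) c).natDegree
        ≤ (∏ c, (Matrix.of fun l c => Hp A b (w l) (I c)) (σ c) c).natDegree := by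
      rcases Int.units_eq_one_or (Equiv.Perm.sign σ) with h | h <;> rw [h] <;> simp
    refine h1.trans ((natDegree_prod_le _ _).trans ?_)
    have h2 : ∀ c ∈ Finset.univ, ((Matrix.of fun l c => Hp A b (w l) (I c)) (σ c) c).natDegree ≤
        if I c = 0 then n else 0 := fun c _ => natDegree_Hp A b _ _
    refine (Finset.sum_le_sum h2).trans ?_
    by_cases h0 : ∃ c0, I c0 = 0
    · obtain ⟨c0, hc0⟩ := h0
      have : ∀ c, (if I c = 0 then n else 0) = if c = c0 then n else 0 := by
        intro c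
        by_cases hc : c = c0
        · simp [hc, hc0]
        · have : I c ≠ 0 := fun h => hc (hI (h.trans hc0.symm))
          simp [hc, this]
      simp [this]
    · push Not at h0
      simp [h0]
  · rw [Function.Injective] at hI
    push Not at hI
    obtain ⟨c, d, hcd, hne⟩ := hI
    unfold mp
    rw [Matrix.det_zero_of_column_eq hne]
    · simp
    · intro k
      simp [hcd]

/-- covolume-like function of a tuple -/
noncomputable def Psi {j : ℕ} (w : Fin j → Fin (n + 1) → ℤ) (x : ℝ) : ℝ :=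
  ‖fun I : Fin j → Fin (n + 1) => (mp A b w I).eval x‖

theorem Psi_cont {j : ℕ} (w : Fin j → Fin (n + 1) → ℤ) : Continuous (Psi A b w) := by
  unfold Psi
  exact continuous_norm.comp (continuous_pi fun I => (mp A b w I).continuous)

theorem le_Psi {j : ℕ} (w : Fin j → Fin (n + 1) → ℤ) (x : ℝ) (I : Fin j → Fin (n + 1)) :
    |(mp A b w I).eval x| ≤ Psi A b w x :=
  norm_le_pi_norm (fun I : Fin j → Fin (n + 1) => (mp A b w I).eval x) I

theorem Psi_le {j : ℕ} (w : Fin j → Fin (n + 1) → ℤ) (x : ℝ) {c : ℝ} (hc : 0 ≤ c)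
    (h : ∀ I : Fin j → Fin (n + 1), |(mp A b w I).eval x| ≤ c) : Psi A b w x ≤ c :=
  (pi_norm_le_iff_of_nonneg hc).2 h

theorem Psi_nonneg {j : ℕ} (w : Fin j → Fin (n + 1) → ℤ) (x : ℝ) : 0 ≤ Psi A b w x :=
  norm_nonneg _

theorem Psi_good (hn : 1 ≤ n) {j : ℕ} (w : Fin j → Fin (n + 1) → ℤ) {e : ℝ} (he : 0 < e)
    (x R : ℝ) (hR : 0 < R) (h : ∃ y ∈ ball x R, 1 ≤ Psi A b w y) :
    volume {z ∈ ball x R | Psi A b w z < e} ≤
      ENNReal.ofReal ((4 * n * ((n + 1) * e) ^ ((1 : ℝ) / n)) * R) := by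
  obtain ⟨y, hy, hy1⟩ := h
  have hI : ∃ I : Fin j → Fin (n + 1), 1 ≤ |(mp A b w I).eval y| := by
    by_contra! hc
    have : Psi A b w y < 1 := (pi_norm_lt_iff one_pos).2 hc
    linarith
  obtain ⟨I, hI⟩ := hI
  refine le_trans (measure_mono ?_) (good_poly hn (natDegree_mp A b w I) hR he hy hI)
  rintro z ⟨hz, hz2⟩
  exact ⟨hz, lt_of_le_of_lt (le_Psi A b w z I) hz2⟩

theorem Psi_empty {j : ℕ} (hj : j = 0) (w : Fin j → Fin (n + 1) → ℤ) (x : ℝ) :
    Psi A b w x ≤ 1 := by
  subst hj
  refine Psi_le A b w x zero_le_one fun I => ?_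
  unfold mp
  rw [Matrix.det_isEmpty]
  simp

theorem Psi_cons {j : ℕ} (w : Fin j → Fin (n + 1) → ℤ) (v : Fin (n + 1) → ℤ) (x : ℝ) :
    Psi A b (Fin.cons v w : Fin (j + 1) → Fin (n + 1) → ℤ) x ≤
      (j + 1) * (‖hv A b x v‖ * Psi A b w x) := by
  refine Psi_le A b _ x (by have := Psi_nonneg A b w x; positivity) fun I => ?_
  rw [eval_mp, Matrix.det_succ_row_zero]
  refine (Finset.abs_sum_le_sum_abs _ _).trans ?_
  have h : ∀ c ∈ (Finset.univ : Finset (Fin (j + 1))), |(-1) ^ (c : ℕ) * (Matrix.of fun l c => hv A b x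
      ((Fin.cons v w : Fin (j + 1) → Fin (n + 1) → ℤ) l) (I c)) 0 c *
      ((Matrix.of fun l c => hv A b x
      ((Fin.cons v w : Fin (j + 1) → Fin (n + 1) → ℤ) l) (I c)).submatrix Fin.succ
        c.succAbove).det| ≤ ‖hv A b x v‖ * Psi A b w x := by
    intro c _
    rw [abs_mul, abs_mul, abs_pow, abs_neg, abs_one, one_pow, one_mul]
    refine mul_le_mul ?_ ?_ (abs_nonneg _) (norm_nonneg _)
    · simp only [Matrix.of_apply, Fin.cons_zero]
      exact norm_le_pi_norm (hv A b x v) (I c)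
    · have := le_Psi A b w x (fun d => I (c.succAbove d))
      rw [eval_mp] at this
      refine le_trans (le_of_eq ?_) this
      congr 2
  refine (Finset.sum_le_sum h).trans ?_
  rw [Finset.sum_const, Finset.card_univ, Fintype.card_fin, nsmul_eq_mul]
  push_cast
  exact le_rfl

theorem hv_sum {ι : Type*} (s : Finset ι) (x : ℝ) (m : ι → ℤ) (w : ι → Fin (n + 1) → ℤ)
    (i : Fin (n + 1)) :
    hv A b x (∑ l ∈ s, m l • w l) i = ∑ l ∈ s, (m l : ℝ) * hv A b x (w l) i := by
  unfold hv
  split_ifs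
  · simp only [Finset.sum_apply, Pi.smul_apply, smul_eq_mul, Int.cast_sum, Int.cast_mul,
      Finset.sum_mul, Finset.mul_sum]
    rw [Finset.sum_comm]
    refine Finset.sum_congr rfl fun l _ => Finset.sum_congr rfl fun j _ => ?_
    ring
  · simp only [Finset.sum_apply, Pi.smul_apply, smul_eq_mul, Int.cast_sum, Int.cast_mul,
      Finset.mul_sum]
    refine Finset.sum_congr rfl fun l _ => ?_
    ring

/-- casting integer vectors -/
def cv (a : Fin (n + 1) → ℤ) : Fin (n + 1) → ℚ := fun i => (a i : ℚ)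

theorem cv_sum {ι : Type*} (s : Finset ι) (m : ι → ℤ) (w : ι → Fin (n + 1) → ℤ) :
    cv (∑ l ∈ s, m l • w l) = ∑ l ∈ s, (m l : ℚ) • cv (w l) := by
  funext i
  simp [cv, Finset.sum_apply]

theorem cv_inj {a a' : Fin (n + 1) → ℤ} (h : cv a = cv a') : a = a' := by
  funext i
  have := congrFun h i
  simpa [cv] using this

theorem Psi_change {j j' : ℕ} (hj : j' = j) (w : Fin j' → Fin (n + 1) → ℤ)
    (u : Fin j → Fin (n + 1) → ℤ) (M : Fin j → Fin j' → ℤ) (hu : ∀ l, u l = ∑ m, M l m • w m)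
    (hind : LinearIndependent ℚ fun l => cv (u l)) (x : ℝ) : Psi A b w x ≤ Psi A b u x := by
  subst hj
  have hdet : (Matrix.of M).det ≠ 0 := by
    intro h0
    obtain ⟨c, hc, hc0⟩ := Matrix.exists_vecMul_eq_zero_iff.2 h0
    apply hc
    have h1 : ∑ l, (c l : ℚ) • cv (u l) = 0 := by
      rw [← cv_sum]
      have : ∑ l, c l • u l = 0 := by
        have h2 : ∑ l, c l • u l = ∑ m, (∑ l, c l * M l m) • w m := by
          simp only [hu, Finset.smul_sum, Finset.sum_smul, smul_smul]
          rw [Finset.sum_comm]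
        rw [h2]
        refine Finset.sum_eq_zero fun m _ => ?_
        have h3 := congrFun hc0 m
        simp only [Matrix.vecMul, dotProduct, Matrix.of_apply, Pi.zero_apply] at h3
        rw [h3, zero_smul]
      rw [this]
      funext i
      simp [cv]
    have h2 := Fintype.linearIndependent_iff.1 hind (fun l => (c l : ℚ)) h1
    funext l
    have := h2 l
    simpa using this
  refine Psi_le A b w x (Psi_nonneg A b u x) fun I => ?_
  have h1 : (Matrix.of fun l c => hv A b x (u l) (I c)) =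
      ((Matrix.of M).map (Int.cast : ℤ → ℝ)) * (Matrix.of fun l c => hv A b x (w l) (I c)) := by
    ext l c
    rw [Matrix.mul_apply]
    simp only [Matrix.of_apply, Matrix.map_apply, hu, hv_sum]
  have h2 : (mp A b u I).eval x = ((Matrix.of M).det : ℝ) * (mp A b w I).eval x := by
    rw [eval_mp, eval_mp, h1, Matrix.det_mul]
    congr 1
    exact ((Int.castRingHom ℝ).map_det (Matrix.of M)).symm
  have h3 := le_Psi A b u x I
  rw [h2, abs_mul] at h3
  have h4 : (1 : ℝ) ≤ |((Matrix.of M).det : ℝ)| := by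
    have : 1 ≤ |(Matrix.of M).det| := Int.one_le_abs hdet
    exact_mod_cast this
  nlinarith [abs_nonneg ((mp A b w I).eval x)]

/-- The lower bound for a full tuple. -/
theorem Psi_full {j : ℕ} (hj : j = n + 1) (hA : 1 ≤ A * b ^ n) (w : Fin j → Fin (n + 1) → ℤ)
    (hind : LinearIndependent ℚ fun l => cv (w l)) (x : ℝ) : 1 ≤ Psi A b w x := by
  subst hj
  have hdet : (Matrix.of w).det ≠ 0 := by
    intro h0
    obtain ⟨c, hc, hc0⟩ := Matrix.exists_vecMul_eq_zero_iff.2 h0
    apply hc
    have h1 : ∑ l, (c l : ℚ) • cv (w l) = 0 := by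
      rw [← cv_sum]
      have : ∑ l, c l • w l = 0 := by
        funext i
        have h3 := congrFun hc0 i
        simpa [Matrix.vecMul, dotProduct] using h3
      rw [this]
      funext i
      simp [cv]
    have h2 := Fintype.linearIndependent_iff.1 hind (fun l => (c l : ℚ)) h1
    funext l
    have := h2 l
    simpa using this
  refine le_trans ?_ (le_Psi A b w x id)
  rw [eval_mp]
  have h1 : (Matrix.of fun l c => hv A b x (w l) (id c)) =
      Matrix.of fun l c => (if c = 0 then A else b) *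
        ((Matrix.of fun l c => ((w l c : ℤ) : ℝ)).updateCol 0
          (fun l => ∑ i : Fin (n + 1), (x ^ (i : ℕ)) •
            (Matrix.of fun l c => ((w l c : ℤ) : ℝ)) l i)) l c := by
    ext l c
    simp only [Matrix.of_apply, hv, id]
    by_cases hc : c = 0
    · subst hc
      simp only [if_true, Matrix.updateCol_self, smul_eq_mul]
      congr 1
      refine Finset.sum_congr rfl fun i _ => ?_
      ring
    · simp only [hc, if_false]
      rw [Matrix.updateCol_ne hc]
      rfl
  rw [h1, Matrix.det_mul_row, Matrix.det_updateCol_sum]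
  have h2 : (∏ i : Fin (n + 1), if i = 0 then A else b) = A * b ^ n := by
    rw [Fin.prod_univ_succ]
    simp
  have h3 : (Matrix.of fun l c => ((w l c : ℤ) : ℝ)).det = ((Matrix.of w).det : ℝ) := by
    have := (Int.castRingHom ℝ).map_det (Matrix.of w)
    simp only [eq_intCast] at this
    rw [this]
    rfl
  rw [h2, h3]
  simp only [Fin.val_zero, pow_zero, one_smul]
  rw [abs_mul]
  have h4 : (1 : ℝ) ≤ |((Matrix.of w).det : ℝ)| := by
    have : 1 ≤ |(Matrix.of w).det| := Int.one_le_abs hdet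
    exact_mod_cast this
  have h5 : 1 ≤ |A * b ^ n| := le_trans hA (le_abs_self _)
  nlinarith

/-- some minor of an independent tuple does not vanish -/
theorem exists_minor {j : ℕ} (w : Fin j → Fin (n + 1) → ℤ)
    (hind : LinearIndependent ℚ fun l => cv (w l)) :
    ∃ I : Fin j → Fin (n + 1), (Matrix.of fun l c => w l (I c)).det ≠ 0 := by
  by_contra! hc
  let W : Matrix (Fin j) (Fin (n + 1)) ℚ := Matrix.of fun l => cv (w l)
  have hinj : Function.Injective W.vecMulLinear := by
    rw [← LinearMap.ker_eq_bot]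
    have := Matrix.vecMul_injective_iff.2 (show LinearIndependent ℚ W.row from hind)
    rw [LinearMap.ker_eq_bot]
    exact this
  obtain ⟨g, hg⟩ := LinearMap.exists_leftInverse_of_injective W.vecMulLinear
    (LinearMap.ker_eq_bot.2 hinj)
  -- the right inverse matrix
  let Q : Matrix (Fin (n + 1)) (Fin j) ℚ := Matrix.of fun i => g (Pi.single i 1)
  have hWQ : W * Q = 1 := by
    ext l c
    have h1 : (g.comp W.vecMulLinear) (Pi.single l 1) = Pi.single l 1 := by rw [hg]; rfl
    have h2 : W.vecMulLinear (Pi.single l 1) = ∑ i, W l i • Pi.single i (1 : ℚ) := by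
      funext i
      simp [Finset.sum_apply, Pi.single_apply]
    rw [LinearMap.comp_apply, h2, map_sum] at h1
    have h3 := congrFun h1 c
    simp only [map_smul, Finset.sum_apply, Pi.smul_apply, smul_eq_mul] at h3
    rw [Matrix.mul_apply]
    simp only [Q, Matrix.of_apply]
    rw [h3, Matrix.one_apply, Pi.single_apply]
    congr 1
    exact propext eq_comm
  have h1 : (W * Q).det = 1 := by rw [hWQ, Matrix.det_one]
  have h2 : (Qᵀ * Wᵀ).det = 1 := by
    rw [← Matrix.transpose_mul, Matrix.det_transpose, h1]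
  have h3 : (Qᵀ * Wᵀ) = Matrix.of fun l => ∑ i, Qᵀ l i • Wᵀ i := by
    ext l c
    rw [Matrix.mul_apply]
    simp [Finset.sum_apply]
  have h4 : (Matrix.of fun l => ∑ i, Qᵀ l i • Wᵀ i).det = 0 := by
    have e1 := (Matrix.detRowAlternating (n := Fin j) (R := ℚ)).toMultilinearMap.map_sum
      (fun (l : Fin j) (i : Fin (n + 1)) => Qᵀ l i • Wᵀ i)
    change (Matrix.detRowAlternating (n := Fin j) (R := ℚ)).toMultilinearMap
      (fun l => ∑ i, Qᵀ l i • Wᵀ i) = 0
    rw [e1]
    refine Finset.sum_eq_zero fun I _ => ?_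
    rw [MultilinearMap.map_smul_univ]
    have e2 : (Matrix.detRowAlternating (n := Fin j) (R := ℚ)).toMultilinearMap
        (fun l => Wᵀ (I l)) = ((Matrix.of fun l c => w l (I c)).det : ℚ) := by
      have e3 := (Int.castRingHom ℚ).map_det (Matrix.of fun l c => w l (I c))
      simp only [eq_intCast] at e3
      rw [e3, ← Matrix.det_transpose]
      rfl
    rw [e2, hc I]
    simp
  rw [h3, h4] at h2
  exact zero_ne_one h2

/-- Condition (A2): large values at one of the points `0, ..., n`. -/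
theorem Psi_large {j : ℕ} (hj : 1 ≤ j) (hA : 1 ≤ A * b ^ (j - 1))
    (w : Fin j → Fin (n + 1) → ℤ) (hind : LinearIndependent ℚ fun l => cv (w l)) :
    ∃ y : ℕ, y ≤ n ∧ 1 ≤ Psi A b w y := by
  obtain ⟨I, hI⟩ := exists_minor w hind
  have hinj : Function.Injective I := by
    intro c d hcd
    by_contra hne
    exact hI (Matrix.det_zero_of_column_eq hne fun k => by simp [hcd])
  have hc0 : ∃ c0 : Fin j, ∀ c, c ≠ c0 → I c ≠ 0 := by
    by_cases h : ∃ c0, I c0 = 0
    · obtain ⟨c0, h0⟩ := h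
      exact ⟨c0, fun c hc h1 => hc (hinj (h1.trans h0.symm))⟩
    · push Not at h
      exact ⟨⟨0, by omega⟩, fun c _ => h c⟩
  obtain ⟨c0, hc0⟩ := hc0
  let W : Matrix (Fin j) (Fin j) ℤ := Matrix.of fun l c => w l (I c)
  let q : ℤ[X] := ∑ i : Fin (n + 1), C (W.cramer (fun l => w l i) c0) * X ^ (i : ℕ)
  have hqcoeff : ∀ i : Fin (n + 1), q.coeff i = W.cramer (fun l => w l i) c0 := by
    intro i
    simp only [q, finsetSum_coeff, coeff_C_mul, coeff_X_pow]
    rw [Finset.sum_eq_single i]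
    · simp
    · intro k _ hk
      have : ¬ ((i : ℕ) = k) := fun h => hk (Fin.ext h.symm)
      simp [this]
    · simp
  have hq0 : q ≠ 0 := by
    intro h
    have h1 := hqcoeff (I c0)
    rw [h, coeff_zero, Matrix.cramer_apply] at h1
    apply hI
    rw [h1]
    congr 1
    ext l c
    by_cases hc : c = c0
    · subst hc
      rw [Matrix.updateCol_self]
      rfl
    · rw [Matrix.updateCol_ne hc]
  have hqdeg : q.natDegree ≤ n := by
    refine natDegree_sum_le_of_forall_le _ _ fun i _ => ?_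
    refine (natDegree_C_mul_X_pow_le _ _).trans ?_
    omega
  have hy : ∃ y : ℕ, y ≤ n ∧ q.eval (y : ℤ) ≠ 0 := by
    by_contra! hcon
    apply hq0
    refine Polynomial.eq_zero_of_natDegree_lt_card_of_eval_eq_zero' q
      ((Finset.range (n + 1)).image fun k : ℕ => (k : ℤ)) ?_ ?_
    · intro z hz
      rw [Finset.mem_image] at hz
      obtain ⟨k, hk, rfl⟩ := hz
      exact hcon k (by have := Finset.mem_range.1 hk; omega)
    · rw [Finset.card_image_of_injective _ Nat.cast_injective, Finset.card_range]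
      omega
  obtain ⟨y, hyn, hy0⟩ := hy
  refine ⟨y, hyn, le_trans ?_ (le_Psi A b w y (Function.update I c0 0))⟩
  rw [eval_mp]
  have hWy : (q.eval (y : ℤ)) = (W.updateCol c0 fun l => ∑ i, w l i * (y : ℤ) ^ (i : ℕ)).det := by
    rw [← Matrix.cramer_apply]
    have e1 : (fun l => ∑ i, w l i * (y : ℤ) ^ (i : ℕ)) =
        ∑ i : Fin (n + 1), ((y : ℤ) ^ (i : ℕ)) • fun l => w l i := by
      funext l
      simp only [Finset.sum_apply, Pi.smul_apply, smul_eq_mul]
      exact Finset.sum_congr rfl fun i _ => mul_comm _ _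
    rw [e1, map_sum, Finset.sum_apply]
    simp only [q, eval_finsetSum, eval_mul, eval_C, eval_pow, eval_X, map_smul, Pi.smul_apply,
      smul_eq_mul]
    exact Finset.sum_congr rfl fun i _ => mul_comm _ _
  have h1 : (Matrix.of fun l c => hv A b (y : ℝ) (w l) (Function.update I c0 0 c)) =
      Matrix.of fun l c => (if c = c0 then A else b) *
        ((W.updateCol c0 fun l => ∑ i, w l i * (y : ℤ) ^ (i : ℕ)).map (Int.cast : ℤ → ℝ)) l c := by
    ext l c
    simp only [Matrix.of_apply, Matrix.map_apply]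
    by_cases hc : c = c0
    · subst hc
      rw [Function.update_self, Matrix.updateCol_self]
      simp [hv]
    · rw [Function.update_of_ne hc, Matrix.updateCol_ne hc]
      simp only [hv, hc0 c hc, if_false, hc]
      rfl
  rw [h1, Matrix.det_mul_row]
  have h2 : (∏ i : Fin j, if i = c0 then A else b) = A * b ^ (j - 1) := by
    rw [Finset.prod_ite, Finset.prod_const, Finset.prod_const]
    have e1 : (Finset.univ.filter fun i : Fin j => i = c0).card = 1 := by
      rw [Finset.filter_eq']; simp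
    have e2 : (Finset.univ.filter fun i : Fin j => ¬ i = c0).card = j - 1 := by
      rw [Finset.filter_ne', Finset.card_erase_of_mem (Finset.mem_univ _)]
      simp
    rw [e1, e2, pow_one]
  have h3 : ((W.updateCol c0 fun l => ∑ i, w l i * (y : ℤ) ^ (i : ℕ)).map
      (Int.cast : ℤ → ℝ)).det = ((q.eval (y : ℤ) : ℤ) : ℝ) := by
    rw [hWy]
    exact ((Int.castRingHom ℝ).map_det _).symm
  rw [h2, h3, abs_mul]
  have h4 : (1 : ℝ) ≤ |((q.eval (y : ℤ) : ℤ) : ℝ)| := by
    have : 1 ≤ |q.eval (y : ℤ)| := Int.one_le_abs hy0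
    exact_mod_cast this
  have h5 : 1 ≤ |A * b ^ (j - 1)| := le_trans hA (le_abs_self _)
  nlinarith

end tuples

end

section

open MeasureTheory Metric Set Polynomial Matrix Module

variable {n : ℕ}

/-- casting as a linear map -/
def cvL : (Fin (n + 1) → ℤ) →ₗ[ℤ] (Fin (n + 1) → ℚ) where
  toFun := cv
  map_add' a b := by funext i; simp [cv]
  map_smul' m a := by funext i; simp [cv]

/-- Integral bases of rational subspaces. -/
theorem exists_tuple (V : Submodule ℚ (Fin (n + 1) → ℚ)) :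
    ∃ (j : ℕ) (w : Fin j → Fin (n + 1) → ℤ), j = finrank ℚ V ∧ (∀ l, cv (w l) ∈ V) ∧
      (LinearIndependent ℚ fun l => cv (w l)) ∧
      ∀ a : Fin (n + 1) → ℤ, cv a ∈ V → ∃ m : Fin j → ℤ, a = ∑ l, m l • w l := by
  let G : Submodule ℤ (Fin (n + 1) → ℤ) := (V.restrictScalars ℤ).comap cvL
  obtain ⟨j, bas⟩ := Submodule.basisOfPid (Pi.basisFun ℤ (Fin (n + 1))) G
  let w : Fin j → Fin (n + 1) → ℤ := fun l => (bas l : Fin (n + 1) → ℤ)
  have hwV : ∀ l, cv (w l) ∈ V := fun l => (bas l).2
  have hind0 : LinearIndependent ℤ fun l => cv (w l) := by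
    have h1 : LinearIndependent ℤ w := by
      have := bas.linearIndependent
      exact this.map' G.subtype (Submodule.ker_subtype G)
    refine h1.map' (cvL (n := n)) ?_
    rw [LinearMap.ker_eq_bot]
    intro a b hab
    exact cv_inj hab
  have hind : LinearIndependent ℚ fun l => cv (w l) :=
    (LinearIndependent.iff_fractionRing ℤ ℚ).1 hind0
  have hrep : ∀ a : Fin (n + 1) → ℤ, cv a ∈ V → ∃ m : Fin j → ℤ, a = ∑ l, m l • w l := by
    intro a ha
    refine ⟨fun l => bas.repr ⟨a, ha⟩ l, ?_⟩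
    have h1 := bas.sum_repr ⟨a, ha⟩
    have h2 := congrArg (Subtype.val) h1
    simp only [Submodule.coe_sum, Submodule.coe_smul] at h2
    exact h2.symm
  have hspan : Submodule.span ℚ (Set.range fun l => cv (w l)) = V := by
    refine le_antisymm (Submodule.span_le.2 ?_) ?_
    · rintro _ ⟨l, rfl⟩
      exact hwV l
    · intro q hq
      -- clear denominators
      let N : ℕ := ∏ i, (q i).den
      have hN : (N : ℚ) ≠ 0 := by
        have : N ≠ 0 := Finset.prod_ne_zero_iff.2 fun i _ => (q i).den_nz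
        exact_mod_cast this
      have h1 : ∀ i, ∃ z : ℤ, (z : ℚ) = (N : ℚ) * q i := by
        intro i
        have hd : (q i).den ∣ N := Finset.dvd_prod_of_mem _ (Finset.mem_univ i)
        obtain ⟨c, hc⟩ := hd
        refine ⟨c * (q i).num, ?_⟩
        have h2 : (q i : ℚ) * (q i).den = (q i).num := Rat.mul_den_eq_num (q i)
        rw [hc]
        push_cast
        rw [← h2]
        ring
      choose a ha using h1
      have h2 : cv a = (N : ℚ) • q := by
        funext i
        simp [cv, ha]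
      have h3 : cv a ∈ V := by
        rw [h2]
        exact V.smul_mem _ hq
      obtain ⟨m, hm⟩ := hrep a h3
      have h4 : q = (N : ℚ)⁻¹ • cv a := by
        rw [h2, smul_smul, inv_mul_cancel₀ hN, one_smul]
      rw [h4, hm, cv_sum]
      refine Submodule.smul_mem _ _ (Submodule.sum_mem _ fun l _ => ?_)
      exact Submodule.smul_mem _ _ (Submodule.subset_span ⟨l, rfl⟩)
  refine ⟨j, w, ?_, hwV, hind, hrep⟩
  have := finrank_span_eq_card hind
  rw [hspan, Fintype.card_fin] at this
  exact this.symm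

/-- The chosen rank. -/
noncomputable def rk (V : Submodule ℚ (Fin (n + 1) → ℚ)) : ℕ := (exists_tuple V).choose

noncomputable def tup (V : Submodule ℚ (Fin (n + 1) → ℚ)) : Fin (rk V) → Fin (n + 1) → ℤ :=
  (exists_tuple V).choose_spec.choose

theorem rk_eq (V : Submodule ℚ (Fin (n + 1) → ℚ)) : rk V = finrank ℚ V :=
  (exists_tuple V).choose_spec.choose_spec.1

theorem tup_mem (V : Submodule ℚ (Fin (n + 1) → ℚ)) : ∀ l, cv (tup V l) ∈ V :=
  (exists_tuple V).choose_spec.choose_spec.2.1

theorem tup_ind (V : Submodule ℚ (Fin (n + 1) → ℚ)) :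
    LinearIndependent ℚ fun l => cv (tup V l) :=
  (exists_tuple V).choose_spec.choose_spec.2.2.1

theorem tup_rep (V : Submodule ℚ (Fin (n + 1) → ℚ)) :
    ∀ a : Fin (n + 1) → ℤ, cv a ∈ V → ∃ m : Fin (rk V) → ℤ, a = ∑ l, m l • tup V l :=
  (exists_tuple V).choose_spec.choose_spec.2.2.2

theorem tup_span (V : Submodule ℚ (Fin (n + 1) → ℚ)) :
    Submodule.span ℚ (Set.range fun l => cv (tup V l)) = V := by
  have h1 : Submodule.span ℚ (Set.range fun l => cv (tup V l)) ≤ V := by
    refine Submodule.span_le.2 ?_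
    rintro _ ⟨l, rfl⟩
    exact tup_mem V l
  refine Submodule.eq_of_le_of_finrank_eq h1 ?_
  rw [finrank_span_eq_card (tup_ind V), Fintype.card_fin, rk_eq]

/-- The function of a subspace. -/
noncomputable def psiV (A b : ℝ) (V : Submodule ℚ (Fin (n + 1) → ℚ)) (x : ℝ) : ℝ :=
  Psi A b (tup V) x

/-- nonzero proper subspaces -/
def SS (n : ℕ) : Set (Submodule ℚ (Fin (n + 1) → ℚ)) := {V | V ≠ ⊥ ∧ V ≠ ⊤}

theorem chain_card (F : Finset (Submodule ℚ (Fin (n + 1) → ℚ))) (hF : (F : Set _) ⊆ SS n)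
    (hch : IsChain (· ≤ ·) (F : Set (Submodule ℚ (Fin (n + 1) → ℚ)))) : F.card ≤ n := by
  have h1 : F.card ≤ (Finset.Icc 1 n).card := by
    refine Finset.card_le_card_of_injOn (fun V => finrank ℚ V) ?_ ?_
    · intro V hV
      have hV' := hF hV
      simp only [Finset.coe_Icc, Set.mem_Icc]
      constructor
      · have : finrank ℚ V ≠ 0 := fun h => hV'.1 (Submodule.finrank_eq_zero.1 h)
        omega
      · have := Submodule.finrank_lt hV'.2
        rw [Module.finrank_fin_fun] at this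
        omega
    · intro V hV V' hV' h
      simp only at h
      by_contra hne
      rcases hch hV hV' hne with h1 | h1
      · exact hne (Submodule.eq_of_le_of_finrank_eq h1 h)
      · exact hne (Submodule.eq_of_le_of_finrank_eq h1 h.symm).symm
  simpa using h1

theorem psiV_step {A b : ℝ} (V : Submodule ℚ (Fin (n + 1) → ℚ)) (v : Fin (n + 1) → ℤ)
    (hv' : cv v ∉ V) (x : ℝ) :
    psiV A b (V ⊔ Submodule.span ℚ {cv v}) x ≤ (n + 1) * (‖hv A b x v‖ * psiV A b V x) := by
  set V' := V ⊔ Submodule.span ℚ {cv v} with hV'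
  let u : Fin (rk V + 1) → Fin (n + 1) → ℤ := Fin.cons v (tup V)
  have hu : (fun l => cv (u l)) = Fin.cons (cv v) (fun l => cv (tup V l)) := by
    funext l
    refine Fin.cases ?_ (fun i => ?_) l
    · rfl
    · rfl
  have hind : LinearIndependent ℚ fun l => cv (u l) := by
    rw [hu]
    rw [linearIndependent_finCons]
    refine ⟨tup_ind V, ?_⟩
    rw [tup_span]
    exact hv'
  have huV : ∀ l, cv (u l) ∈ V' := by
    intro l
    refine Fin.cases ?_ (fun i => ?_) l
    · exact (le_sup_right : _ ≤ V') (Submodule.mem_span_singleton_self _)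
    · exact (le_sup_left : _ ≤ V') (tup_mem V i)
  have hspanu : Submodule.span ℚ (Set.range fun l => cv (u l)) = V' := by
    rw [hu, Fin.range_cons, Submodule.span_insert, tup_span, hV', sup_comm]
  have hrk : rk V' = rk V + 1 := by
    rw [rk_eq]
    have := finrank_span_eq_card hind
    rw [hspanu, Fintype.card_fin] at this
    exact this
  choose M hM using fun l => tup_rep V' (u l) (huV l)
  have h1 : psiV A b V' x ≤ Psi A b u x := Psi_change A b hrk (tup V') u M hM hind x
  have h2 := Psi_cons A b (tup V) v x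
  have hle : rk V + 1 ≤ n + 1 := by
    rw [← hrk, rk_eq]
    have := Submodule.finrank_le V'
    rwa [Module.finrank_fin_fun] at this
  have hle' : ((rk V : ℝ) + 1) ≤ n + 1 := by exact_mod_cast hle
  have h3 : 0 ≤ ‖hv A b x v‖ * psiV A b V x :=
    mul_nonneg (norm_nonneg _) (Psi_nonneg _ _ _ _)
  calc psiV A b V' x ≤ Psi A b u x := h1
    _ ≤ (rk V + 1) * (‖hv A b x v‖ * Psi A b (tup V) x) := h2
    _ ≤ (n + 1) * (‖hv A b x v‖ * psiV A b V x) := mul_le_mul_of_nonneg_right hle' h3

open Classical in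
/-- marked points have no short vectors -/
theorem marked_bound {A b ε : ℝ} (hA : 1 ≤ A * b ^ n) {x : ℝ}
    (hm : Marked (psiV (n := n) A b) ε (SS n) x) (v : Fin (n + 1) → ℤ) (hv0 : v ≠ 0) :
    min ε 1 ≤ (n + 1) * ‖hv A b x v‖ := by
  obtain ⟨F, hF, hch, hM, hM3⟩ := hm
  -- the subspace below
  have hV0 : ∃ V0 : Submodule ℚ (Fin (n + 1) → ℚ), cv v ∉ V0 ∧ psiV A b V0 x ≤ 1 ∧
      ∀ f ∈ F, f ≤ V0 ∨ (V0 ≤ f ∧ cv v ∈ f) := by
    have hcv0 : cv v ≠ 0 := by
      intro h
      apply hv0
      apply cv_inj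
      rw [h]
      funext i
      simp [cv]
    by_cases hne : (F.filter fun f => cv v ∉ f).Nonempty
    · obtain ⟨V0, hV0, hmax⟩ := Finset.exists_max_image _
        (fun f : Submodule ℚ (Fin (n + 1) → ℚ) => finrank ℚ f) hne
      rw [Finset.mem_filter] at hV0
      refine ⟨V0, hV0.2, (hM V0 hV0.1).2, ?_⟩
      intro f hf
      by_cases hvf : cv v ∈ f
      · right
        refine ⟨?_, hvf⟩
        by_cases hfe : V0 = f
        · exact hfe.le
        · rcases hch hV0.1 hf hfe with h | h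
          · exact h
          · exact absurd (h hvf) hV0.2
      · left
        by_cases hfe : f = V0
        · exact hfe.le
        · rcases hch hf hV0.1 hfe with h | h
          · exact h
          · have := hmax f (Finset.mem_filter.2 ⟨hf, hvf⟩)
            exact (Submodule.eq_of_le_of_finrank_le h this).ge
    · rw [Finset.not_nonempty_iff_eq_empty, Finset.filter_eq_empty_iff] at hne
      refine ⟨⊥, by simpa using hcv0, ?_, ?_⟩
      · exact Psi_empty A b (by rw [rk_eq]; simp) _ x
      · intro f hf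
        right
        exact ⟨bot_le, not_not.1 (hne hf)⟩
  obtain ⟨V0, hv0V, hle1, hcomp⟩ := hV0
  set V' := V0 ⊔ Submodule.span ℚ {cv v} with hV'
  have hstep := psiV_step (A := A) (b := b) V0 v hv0V x
  rw [← hV'] at hstep
  have hmemV' : cv v ∈ V' := (le_sup_right : _ ≤ V') (Submodule.mem_span_singleton_self _)
  have hlow : min ε 1 ≤ psiV A b V' x := by
    by_cases htop : V' = ⊤
    · refine le_trans (min_le_right _ _) ?_
      refine Psi_full A b ?_ hA (tup V') (tup_ind V') x
      rw [rk_eq, htop]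
      simp
    · by_cases hVF : V' ∈ F
      · exact le_trans (min_le_left _ _) (hM V' hVF).1
      · refine le_trans (min_le_right _ _) ?_
        refine hM3 V' ⟨?_, htop⟩ hVF ?_
        · intro hbot
          rw [hbot, Submodule.mem_bot] at hmemV'
          apply hv0
          apply cv_inj
          rw [hmemV']
          funext i
          simp [cv]
        · intro f hf
          rcases hcomp f hf with h | ⟨h, hvf⟩
          · right
            exact h.trans le_sup_left
          · left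
            refine sup_le h ?_
            rw [Submodule.span_singleton_le_iff_mem]
            exact hvf
  have hn0 : 0 ≤ ‖hv A b x v‖ := norm_nonneg _
  calc min ε 1 ≤ psiV A b V' x := hlow
    _ ≤ (n + 1) * (‖hv A b x v‖ * psiV A b V0 x) := hstep
    _ ≤ (n + 1) * (‖hv A b x v‖ * 1) := by gcongr
    _ = (n + 1) * ‖hv A b x v‖ := by ring

/-- The main measure estimate. -/
theorem main_measure (hn : 1 ≤ n) {N T δ η : ℝ} (hN : (n : ℝ) + 1 ≤ N) (hT : 1 ≤ T)
    (hδ : 0 < δ) (hη : 0 < η) (hη1 : η ≤ 1) (hdet : η ^ (n + 1) = δ * T ^ n) :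
    volume {x ∈ ball (0 : ℝ) N | ∃ a : Fin (n + 1) → ℤ, a ≠ 0 ∧
      |∑ j, (a j : ℝ) * x ^ (j : ℕ)| ≤ δ ∧ ∀ j, |(a j : ℝ)| ≤ T} ≤
      ENNReal.ofReal (kap n * (4 * n * ((n + 1) * (2 * (n + 1) * η)) ^ ((1 : ℝ) / n)) * N) := by
  set ε : ℝ := 2 * (n + 1) * η with hε
  have hεpos : 0 < ε := by positivity
  have hn' : (1 : ℝ) ≤ n := by exact_mod_cast hn
  have hNpos : 0 < N := by linarith
  set g : ℝ := 4 * n * ((n + 1) * ε) ^ ((1 : ℝ) / n) with hg
  have hgnn : 0 ≤ g := by positivity
  by_cases hε1 : 1 < ε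
  · -- trivial bound
    have h1 : (1 : ℝ) ≤ ((n + 1) * ε) ^ ((1 : ℝ) / n) := by
      apply Real.one_le_rpow
      · nlinarith
      · positivity
    have h2 : (12 : ℝ) ≤ kap n := by
      obtain ⟨m, rfl⟩ : ∃ m, n = m + 1 := ⟨n - 1, by omega⟩
      simp only [kap]
      have := kap_nonneg m
      linarith
    have h3 : (4 : ℝ) ≤ g := by
      rw [hg]
      nlinarith
    calc _ ≤ volume (ball (0 : ℝ) N) := measure_mono (fun x hx => hx.1)
      _ = ENNReal.ofReal (2 * N) := Real.volume_ball _ _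
      _ ≤ ENNReal.ofReal (kap n * g * N) := by
        apply ENNReal.ofReal_le_ofReal
        have : (48 : ℝ) ≤ kap n * g := by nlinarith
        nlinarith
  · push Not at hε1
    set A : ℝ := η / δ with hAdef
    set b : ℝ := η / T with hbdef
    have hTpos : 0 < T := by linarith
    have hbpos : 0 < b := by positivity
    have hb1 : b ≤ 1 := by
      rw [hbdef, div_le_one hTpos]
      linarith
    have hApos : 0 < A := by positivity
    have hAb : A * b ^ n = 1 := by
      rw [hAdef, hbdef, div_pow, div_mul_div_comm, ← pow_succ', hdet]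
      exact div_self (by positivity)
    have hAbj : ∀ j, j ≤ n → 1 ≤ A * b ^ j := by
      intro j hj
      rw [← hAb]
      exact mul_le_mul_of_nonneg_left (pow_le_pow_of_le_one hbpos.le hb1 hj) hApos.le
    have hnd := nondiv (psiV (n := n) A b) ε hgnn (fun V => Psi_cont A b (tup V))
      (fun V x R hR h => Psi_good A b hn (tup V) hεpos x R hR h) n (SS n)
      (fun F hF hch => chain_card F hF hch) 0 N hNpos (by
        intro V hV
        have hj : 1 ≤ rk V := by
          rw [rk_eq]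
          have : finrank ℚ V ≠ 0 := fun h => hV.1 (Submodule.finrank_eq_zero.1 h)
          omega
        have hj2 : rk V - 1 ≤ n := by
          have := Submodule.finrank_le V
          rw [Module.finrank_fin_fun, ← rk_eq] at this
          omega
        obtain ⟨y, hyn, hy⟩ := Psi_large A b hj (hAbj _ hj2) (tup V) (tup_ind V)
        refine ⟨y, ?_, hy⟩
        rw [mem_ball, Real.dist_eq, sub_zero, abs_of_nonneg (Nat.cast_nonneg y)]
        have : (y : ℝ) ≤ n := by exact_mod_cast hyn
        linarith)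
    refine le_trans (measure_mono ?_) hnd
    rintro x ⟨hx, a, ha0, haδ, haT⟩
    refine ⟨hx, ?_⟩
    intro hmark
    have h1 := marked_bound hAb.ge hmark a ha0
    have h2 : ‖hv A b x a‖ ≤ η := by
      rw [pi_norm_le_iff_of_nonneg hη.le]
      intro i
      unfold hv
      split_ifs
      · rw [Real.norm_eq_abs, abs_mul, abs_of_pos hApos, hAdef]
        calc η / δ * |∑ j, (a j : ℝ) * x ^ (j : ℕ)| ≤ η / δ * δ := by gcongr
          _ = η := by field_simp
      · rw [Real.norm_eq_abs, abs_mul, abs_of_pos hbpos, hbdef]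
        calc η / T * |(a i : ℝ)| ≤ η / T * T := by gcongr; exact haT i
          _ = η := by field_simp
    rw [min_eq_left hε1] at h1
    have h3 : ε ≤ (n + 1) * η := h1.trans (by gcongr)
    rw [hε] at h3
    nlinarith

end

section

open MeasureTheory Metric Set Polynomial Module

/-- The naive height of an integer polynomial: the maximum of the absolute values of its
coefficients. -/
def height (P : ℤ[X]) : ℕ := P.support.sup fun i => (P.coeff i).natAbs

theorem coeff_le_height (P : ℤ[X]) (i : ℕ) : (P.coeff i).natAbs ≤ height P := by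
  by_cases h : i ∈ P.support
  · exact Finset.le_sup (f := fun i => (P.coeff i).natAbs) h
  · rw [Polynomial.notMem_support_iff] at h
    rw [h]
    simp

theorem one_le_height {P : ℤ[X]} (hP : P ≠ 0) : 1 ≤ height P := by
  have h := coeff_le_height P P.natDegree
  have h2 : P.coeff P.natDegree ≠ 0 := by simpa using hP
  have h3 : 1 ≤ (P.coeff P.natDegree).natAbs := Nat.one_le_iff_ne_zero.2 (by simpa using h2)
  omega

/-- The explicit constants. -/
noncomputable def KK (n : ℕ) : ℝ := 3 * ((n : ℝ) + 1) ^ 3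

/-- bad sets -/
def Bad (n : ℕ) (θ : ℝ) (k : ℕ) (N : ℝ) : Set ℝ :=
  {x ∈ ball (0 : ℝ) N | ∃ P : ℤ[X], P.natDegree = n ∧ 2 ^ k ≤ height P ∧ height P < 2 ^ (k + 1) ∧
    |aeval x P| ≤ Real.exp (-(θ * Real.log (height P)) - KK n)}

theorem Bad_sub {n : ℕ} {σ : ℝ} (hσ : 0 < σ) (k : ℕ) (N : ℝ) :
    Bad n (n + σ) k N ⊆ {x ∈ ball (0 : ℝ) N | ∃ a : Fin (n + 1) → ℤ, a ≠ 0 ∧
      |∑ j, (a j : ℝ) * x ^ (j : ℕ)| ≤ Real.exp (-((n + σ) * (k * Real.log 2)) - KK n) ∧
        ∀ j, |(a j : ℝ)| ≤ 2 ^ (k + 1)} := by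
  rintro x ⟨hx, P, hPn, hk1, hk2, hP⟩
  have hH1 : 1 ≤ height P := le_trans Nat.one_le_two_pow hk1
  have hP0 : P ≠ 0 := by
    rintro rfl
    simp [height] at hH1
  refine ⟨hx, fun j => P.coeff j, ?_, ?_, ?_⟩
  · intro h
    have h1 := congrFun h (Fin.last n)
    simp only [Fin.val_last, Pi.zero_apply] at h1
    rw [← hPn] at h1
    exact hP0 (by simpa using h1)
  · have h1 : ∑ j : Fin (n + 1), ((P.coeff j : ℤ) : ℝ) * x ^ (j : ℕ) = aeval x P := by
      rw [aeval_eq_sum_range, hPn, Finset.sum_range]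
      refine Finset.sum_congr rfl fun j _ => ?_
      simp
    rw [h1]
    refine hP.trans (Real.exp_le_exp.2 ?_)
    have h2 : (k : ℝ) * Real.log 2 ≤ Real.log (height P) := by
      rw [← Real.log_pow]
      apply Real.log_le_log (by positivity)
      exact_mod_cast hk1
    have h3 : (0 : ℝ) < n + σ := by positivity
    have := mul_le_mul_of_nonneg_left h2 h3.le
    linarith
  · intro j
    have h1 := coeff_le_height P j
    have h2 : ((P.coeff j).natAbs : ℝ) = |((P.coeff j : ℤ) : ℝ)| := by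
      rw [Nat.cast_natAbs, Int.cast_abs]
    rw [← h2]
    have h3 : (P.coeff j).natAbs ≤ 2 ^ (k + 1) := by omega
    exact_mod_cast h3

theorem Bad_measure {n : ℕ} (hn : 1 ≤ n) {σ : ℝ} (hσ : 0 < σ) (k : ℕ) {N : ℝ}
    (hN : (n : ℝ) + 1 ≤ N) : volume (Bad n (n + σ) k N) ≤
      ENNReal.ofReal (16 * n * (n + 1) ^ 2 * 12 ^ n * Real.exp (-3 * n - 5) * N *
        Real.exp (-(σ * Real.log 2 / (n * (n + 1)))) ^ k) := by
  have hn' : (1 : ℝ) ≤ n := by exact_mod_cast hn
  have hl2 : 0 < Real.log 2 := Real.log_pos (by norm_num)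
  have hl2' : Real.log 2 ≤ 1 := by
    have := Real.log_le_sub_one_of_pos (show (0 : ℝ) < 2 by norm_num)
    linarith
  have hNpos : 0 < N := by linarith
  set η : ℝ := Real.exp ((-KK n + (n - σ * k) * Real.log 2) / (n + 1)) with hη
  have hηpos : 0 < η := Real.exp_pos _
  have hη1 : η ≤ 1 := by
    rw [hη, Real.exp_le_one_iff]
    apply div_nonpos_of_nonpos_of_nonneg _ (by positivity)
    have h1 : (n - σ * k) * Real.log 2 ≤ n * 1 := by
      have h2 : (n - σ * k) ≤ n := by
        have : 0 ≤ σ * k := by positivity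
        linarith
      calc (n - σ * k) * Real.log 2 ≤ n * Real.log 2 := mul_le_mul_of_nonneg_right h2 hl2.le
        _ ≤ n * 1 := by gcongr
    have h3 : (n : ℝ) ≤ KK n := by
      unfold KK
      nlinarith [pow_nonneg (by positivity : (0 : ℝ) ≤ n) 3, pow_nonneg
        (by positivity : (0 : ℝ) ≤ n) 2]
    linarith
  have hdet : η ^ (n + 1) =
      Real.exp (-((n + σ) * (k * Real.log 2)) - KK n) * ((2 : ℝ) ^ (k + 1)) ^ n := by
    have h1 : ((2 : ℝ) ^ (k + 1)) ^ n = Real.exp (n * (k + 1) * Real.log 2) := by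
      rw [← pow_mul]
      have : (2 : ℝ) = Real.exp (Real.log 2) := (Real.exp_log (by norm_num)).symm
      conv_lhs => rw [this]
      rw [← Real.exp_nat_mul]
      congr 1
      push_cast
      ring
    rw [h1, ← Real.exp_add, hη, ← Real.exp_nat_mul]
    congr 1
    have : (n : ℝ) + 1 ≠ 0 := by positivity
    push_cast
    field_simp
    ring
  refine (measure_mono (Bad_sub hσ k N)).trans ?_
  refine (main_measure hn hN (one_le_pow₀ (by norm_num)) (Real.exp_pos _) hηpos hη1 hdet).trans ?_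
  apply ENNReal.ofReal_le_ofReal
  have h1 : (((n : ℝ) + 1) * (2 * (n + 1) * η)) ^ ((1 : ℝ) / n) ≤
      2 * (n + 1) ^ 2 * (Real.exp (-3 * n - 5) *
        Real.exp (-(σ * Real.log 2 / (n * (n + 1)))) ^ k) := by
    have e1 : ((n : ℝ) + 1) * (2 * (n + 1) * η) = (2 * (n + 1) ^ 2) * η := by ring
    rw [e1, Real.mul_rpow (by positivity) hηpos.le]
    have e2 : (2 * ((n : ℝ) + 1) ^ 2) ^ ((1 : ℝ) / n) ≤ 2 * (n + 1) ^ 2 := by
      have h2 : (1 : ℝ) ≤ 2 * ((n : ℝ) + 1) ^ 2 := by nlinarith
      calc (2 * ((n : ℝ) + 1) ^ 2) ^ ((1 : ℝ) / n) ≤ (2 * ((n : ℝ) + 1) ^ 2) ^ (1 : ℝ) := by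
            apply Real.rpow_le_rpow_of_exponent_le h2
            rw [div_le_one (by positivity)]
            exact hn'
        _ = 2 * ((n : ℝ) + 1) ^ 2 := Real.rpow_one _
    have e3 : η ^ ((1 : ℝ) / n) ≤ Real.exp (-3 * n - 5) *
        Real.exp (-(σ * Real.log 2 / (n * (n + 1)))) ^ k := by
      rw [hη, ← Real.exp_mul, ← Real.exp_nat_mul, ← Real.exp_add, Real.exp_le_exp]
      have hn0 : (n : ℝ) ≠ 0 := by positivity
      have hn1 : (n : ℝ) + 1 ≠ 0 := by positivity
      have e4 : (-KK n + (n - σ * k) * Real.log 2) / (n + 1) * (1 / n) =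
          -3 * (n + 2 + 1 / n) + Real.log 2 / (n + 1) +
            k * -(σ * Real.log 2 / (n * (n + 1))) := by
        unfold KK
        field_simp
        ring
      rw [e4]
      have e5 : Real.log 2 / (n + 1) ≤ 1 := by
        rw [div_le_one (by positivity)]
        linarith
      have e6 : 0 ≤ 1 / (n : ℝ) := by positivity
      linarith
    have e7 : 0 ≤ η ^ ((1 : ℝ) / n) := by positivity
    exact mul_le_mul e2 e3 e7 (by positivity)
  have h2 : kap n ≤ 2 * 12 ^ n := by
    have := kap_le n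
    linarith
  have h3 := kap_nonneg n
  calc kap n * (4 * n * (((n : ℝ) + 1) * (2 * (n + 1) * η)) ^ ((1 : ℝ) / n)) * N
      ≤ (2 * 12 ^ n) * (4 * n * (2 * (n + 1) ^ 2 * (Real.exp (-3 * n - 5) *
        Real.exp (-(σ * Real.log 2 / (n * (n + 1)))) ^ k))) * N := by gcongr
    _ = _ := by ring

/-- finitely many bad indices for one degree -/
theorem ae_fixed {n : ℕ} (hn : 1 ≤ n) {σ : ℝ} (hσ : 0 < σ) {N : ℝ} (hN : (n : ℝ) + 1 ≤ N) :
    ∀ᵐ x : ℝ, {k : ℕ | x ∈ Bad n (n + σ) k N}.Finite := by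
  refine ae_finite_setOfPred_mem ?_
  have hn' : (1 : ℝ) ≤ n := by exact_mod_cast hn
  have hNpos : 0 < N := by linarith
  have hl2 : 0 < Real.log 2 := Real.log_pos (by norm_num)
  set q : ℝ := Real.exp (-(σ * Real.log 2 / (n * (n + 1)))) with hq
  have hq0 : 0 ≤ q := (Real.exp_pos _).le
  have hq1 : q < 1 := by
    rw [hq, Real.exp_lt_one_iff]
    have : 0 < σ * Real.log 2 / (n * (n + 1)) := by positivity
    linarith
  set c : ℝ := 16 * n * (n + 1) ^ 2 * 12 ^ n * Real.exp (-3 * n - 5) * N with hc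
  have hc0 : 0 ≤ c := by positivity
  have hsum : Summable fun k : ℕ => c * q ^ k := (summable_geometric_of_lt_one hq0 hq1).mul_left c
  refine ne_top_of_le_ne_top (hsum.tsum_ofReal_ne_top) ?_
  exact ENNReal.tsum_le_tsum fun k => Bad_measure hn hσ k hN

/-- the total over degrees -/
theorem ae_total : ∀ᵐ x : ℝ, {p : ℕ × ℕ | x ∈ Bad (p.1 + 1) ((p.1 + 1 : ℕ) + 1) p.2
    ((p.1 + 1 : ℕ) + 1)}.Finite := by
  refine ae_finite_setOfPred_mem ?_
  have hl2 : 0 < Real.log 2 := Real.log_pos (by norm_num)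
  have hl2' : 1 / 2 ≤ Real.log 2 := by
    have := Real.log_two_gt_d9
    linarith
  have hl2'' : Real.log 2 ≤ 1 := by
    have := Real.log_le_sub_one_of_pos (show (0 : ℝ) < 2 by norm_num)
    linarith
  rw [ENNReal.tsum_prod']
  set ρ : ℝ := 12 * Real.exp (-3) with hρ
  have hρ0 : 0 ≤ ρ := by positivity
  have hρ1 : ρ < 1 := by
    rw [hρ, Real.exp_neg]
    have h1 : (12 : ℝ) < Real.exp 3 := by
      have h2 : (2.7 : ℝ) < Real.exp 1 := by
        have := Real.exp_one_gt_d9
        linarith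
      have h3 : Real.exp 3 = Real.exp 1 ^ 3 := by
        rw [← Real.exp_nat_mul]; norm_num
      rw [h3]
      have h4 : (2.7 : ℝ) ^ 3 < Real.exp 1 ^ 3 := by gcongr
      norm_num at h4 ⊢
      linarith
    rw [← div_eq_mul_inv, div_lt_one (Real.exp_pos 3)]
    exact h1
  have hbound : ∀ m : ℕ, ∑' k : ℕ, volume (Bad (m + 1) ((m + 1 : ℕ) + 1) k ((m + 1 : ℕ) + 1)) ≤
      ENNReal.ofReal (64 * (((m + 2 : ℕ) : ℝ)) ^ 6 * ρ ^ (m + 2 : ℕ) * (1 / ρ)) := by
    intro m
    set n : ℕ := m + 1 with hn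
    have hn1 : 1 ≤ n := by omega
    have hn' : (1 : ℝ) ≤ n := by exact_mod_cast hn1
    set t : ℝ := 1 * Real.log 2 / (n * (n + 1)) with ht
    have htpos : 0 < t := by positivity
    have ht1 : t ≤ 1 := by
      rw [ht, div_le_one (by positivity)]
      nlinarith
    have hq1 : Real.exp (-t) < 1 := by
      rw [Real.exp_lt_one_iff]; linarith
    have hqt : t / 2 ≤ 1 - Real.exp (-t) := by
      have h1 : Real.exp (-t) ≤ 1 / (1 + t) := by
        rw [Real.exp_neg, ← one_div]
        apply one_div_le_one_div_of_le (by linarith)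
        have := Real.add_one_le_exp t
        linarith
      have h2 : 1 / (1 + t) ≤ 1 - t / 2 := by
        rw [div_le_iff₀ (by linarith)]
        nlinarith
      linarith
    set c : ℝ := 16 * n * (n + 1) ^ 2 * 12 ^ n * Real.exp (-3 * n - 5) * (n + 1) with hc
    have hc0 : 0 ≤ c := by positivity
    have h1 : ∑' k : ℕ, volume (Bad n ((n : ℝ) + 1) k ((n : ℝ) + 1)) ≤
        ∑' k : ℕ, ENNReal.ofReal (c * Real.exp (-t) ^ k) :=
      ENNReal.tsum_le_tsum fun k => Bad_measure hn1 one_pos k le_rfl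
    refine h1.trans ?_
    have hsum : Summable fun k : ℕ => c * Real.exp (-t) ^ k :=
      (summable_geometric_of_lt_one (Real.exp_pos _).le hq1).mul_left c
    rw [← ENNReal.ofReal_tsum_of_nonneg (fun k => by positivity) hsum]
    apply ENNReal.ofReal_le_ofReal
    rw [tsum_mul_left, tsum_geometric_of_lt_one (Real.exp_pos _).le hq1]
    have h2 : (1 - Real.exp (-t))⁻¹ ≤ 4 * (n * (n + 1)) := by
      have h3 : 0 < t / 2 := by linarith
      calc (1 - Real.exp (-t))⁻¹ ≤ (t / 2)⁻¹ := inv_anti₀ h3 hqt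
        _ = 2 * (n * (n + 1)) / Real.log 2 := by rw [ht]; field_simp
        _ ≤ 4 * (n * (n + 1)) := by
          rw [div_le_iff₀ hl2]
          have : (0 : ℝ) < n * (n + 1) := by positivity
          nlinarith
    have h4 : 12 ^ n * Real.exp (-3 * n - 5) ≤ ρ ^ n := by
      rw [hρ, mul_pow, ← Real.exp_nat_mul]
      have : Real.exp (-3 * n - 5) ≤ Real.exp (n * -3) := Real.exp_le_exp.2 (by linarith)
      gcongr
    have h5 : (((m + 2 : ℕ) : ℝ)) = n + 1 := by rw [hn]; push_cast; ring
    have h6 : ρ ^ (m + 2 : ℕ) * (1 / ρ) = ρ ^ n := by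
      have : ρ ≠ 0 := by positivity
      rw [hn, show m + 2 = (m + 1) + 1 by omega, pow_succ]
      field_simp
    have h7 : 64 * (((m + 2 : ℕ) : ℝ)) ^ 6 * ρ ^ (m + 2 : ℕ) * (1 / ρ) =
        64 * (n + 1 : ℝ) ^ 6 * ρ ^ n := by
      rw [mul_assoc, h6, h5]
    rw [h7]
    calc c * (1 - Real.exp (-t))⁻¹ ≤ c * (4 * (n * (n + 1))) := by gcongr
      _ = 64 * ((n : ℝ) * (n + 1) * n * (n + 1) * (n + 1) * (n + 1)) *
          (12 ^ n * Real.exp (-3 * n - 5)) := by rw [hc]; ring
      _ ≤ 64 * ((n + 1 : ℝ) * (n + 1) * (n + 1) * (n + 1) * (n + 1) * (n + 1)) * ρ ^ n := by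
          have : (n : ℝ) ≤ n + 1 := by linarith
          gcongr
      _ = 64 * (n + 1 : ℝ) ^ 6 * ρ ^ n := by ring
  have hS : Summable fun m : ℕ => 64 * (((m + 2 : ℕ) : ℝ)) ^ 6 * ρ ^ (m + 2 : ℕ) * (1 / ρ) := by
    have h1 : Summable fun m : ℕ => ((m : ℝ) ^ 6 * ρ ^ m : ℝ) :=
      summable_pow_mul_geometric_of_norm_lt_one 6 (by
        rw [Real.norm_eq_abs, abs_of_nonneg hρ0]; exact hρ1)
    have h2 := ((summable_nat_add_iff (f := fun m : ℕ => ((m : ℝ) ^ 6 * ρ ^ m : ℝ)) 2).2 h1)
    have h3 := (h2.mul_left 64).mul_right (1 / ρ)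
    refine h3.congr fun m => ?_
    push_cast
    ring
  refine ne_top_of_le_ne_top (hS.tsum_ofReal_ne_top) ?_
  exact ENNReal.tsum_le_tsum hbound

/-- Main theorem: with `K n = 3 (n + 1) ^ 3`, for every `ε > 0` and almost every real `ξ` the bound
`|P(ξ)| > exp (-(1 + ε) n log H - K n)` holds for all integer polynomials `P` of degree `n` and
height `H` with `max (n, H)` at least some `C` depending only on `ξ` and `ε`. -/
theorem result : ∃ K : ℕ → ℝ, (∀ n, K n = 3 * ((n : ℝ) + 1) ^ 3) ∧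
    ∀ ε : ℝ, 0 < ε → ∀ᵐ ξ : ℝ, ∃ C : ℝ, ∀ P : ℤ[X], 1 ≤ P.natDegree →
      C ≤ max (P.natDegree : ℝ) (height P : ℝ) →
      Real.exp (-((1 + ε) * P.natDegree * Real.log (height P)) - K P.natDegree) <
        |aeval ξ P| := by
  refine ⟨KK, fun n => rfl, ?_⟩
  intro ε hε
  have h1 := ae_total
  have h2 : ∀ᵐ x : ℝ, ∀ n N : ℕ, {k : ℕ | x ∈ Bad (n + 1) ((n + 1 : ℕ) + ε * (n + 1 : ℕ)) k
      (((n + 1 : ℕ) + 1 : ℝ) + N)}.Finite := by
    rw [ae_all_iff]
    intro n
    rw [ae_all_iff]
    intro N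
    refine ae_fixed (by omega) (by positivity) ?_
    have : (0 : ℝ) ≤ N := Nat.cast_nonneg N
    linarith
  filter_upwards [h1, h2] with ξ hξ1 hξ2
  -- threshold for large degrees
  have hn0 : ∃ n0 : ℕ, ∀ n ≥ n0, ∀ k, 1 ≤ n → ξ ∉ Bad n ((n : ℝ) + 1) k ((n : ℝ) + 1) := by
    obtain ⟨b, hb⟩ := (hξ1.image Prod.fst).bddAbove
    refine ⟨b + 2, ?_⟩
    intro n hn k hn1 hmem
    obtain ⟨m, rfl⟩ : ∃ m, n = m + 1 := ⟨n - 1, by omega⟩
    have : m ≤ b := hb ⟨(m, k), hmem, rfl⟩
    omega
  obtain ⟨n0, hn0⟩ := hn0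
  obtain ⟨N1, hN1⟩ := exists_nat_gt |ξ|
  obtain ⟨N2, hN2⟩ := exists_nat_gt (1 / ε)
  set n1 : ℕ := max n0 (max N1 (max N2 1)) with hn1
  -- thresholds for small degrees
  have hk : ∀ n : ℕ, ∃ kn : ℕ, ∀ k ≥ kn,
      ξ ∉ Bad (n + 1) ((n + 1 : ℕ) + ε * (n + 1 : ℕ)) k (((n + 1 : ℕ) + 1 : ℝ) + N1) := by
    intro n
    obtain ⟨b, hb⟩ := (hξ2 n N1).bddAbove
    refine ⟨b + 1, fun k hk hmem => ?_⟩
    have : k ≤ b := hb hmem
    omega
  choose kn hkn using hk
  set κ : ℕ := (Finset.range n1).sup kn with hκ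
  refine ⟨max (n1 : ℝ) ((2 : ℝ) ^ κ), ?_⟩
  intro P hP1 hPC
  set n := P.natDegree with hn
  have hP0 : P ≠ 0 := by
    intro h
    rw [h, natDegree_zero] at hn
    omega
  have hH1 := one_le_height hP0
  set H := height P with hH
  set k := Nat.log 2 H with hkdef
  have hk1 : 2 ^ k ≤ H := Nat.pow_log_le_self 2 (by omega)
  have hk2 : H < 2 ^ (k + 1) := Nat.lt_pow_succ_log_self (by norm_num) H
  have hlogH : 0 ≤ Real.log H := Real.log_nonneg (by exact_mod_cast hH1)
  by_cases hcase : n1 ≤ n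
  · have hnn0 : n0 ≤ n := le_trans (le_max_left _ _) hcase
    have hnN1 : N1 ≤ n := le_trans (le_trans (le_max_left _ _) (le_max_right _ _)) hcase
    have hnN2 : N2 ≤ n :=
      le_trans (le_trans (le_trans (le_max_left _ _) (le_max_right _ _)) (le_max_right _ _)) hcase
    have h3 := hn0 n hnn0 k hP1
    have hball : ξ ∈ ball (0 : ℝ) ((n : ℝ) + 1) := by
      rw [mem_ball, Real.dist_eq, sub_zero]
      have : (N1 : ℝ) ≤ n := by exact_mod_cast hnN1
      linarith
    have h4 : Real.exp (-(((n : ℝ) + 1) * Real.log H) - KK n) < |aeval ξ P| := by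
      by_contra hcon
      push Not at hcon
      exact h3 ⟨hball, P, hn.symm, hk1, hk2, hcon⟩
    refine lt_of_le_of_lt (Real.exp_le_exp.2 ?_) h4
    have h5 : (1 : ℝ) ≤ ε * n := by
      have h6 : (N2 : ℝ) ≤ n := by exact_mod_cast hnN2
      have h7 : 1 / ε < n := lt_of_lt_of_le hN2 h6
      rw [div_lt_iff₀ hε] at h7
      linarith
    have h8 : ((n : ℝ) + 1) * Real.log H ≤ (1 + ε) * n * Real.log H := by
      apply mul_le_mul_of_nonneg_right _ hlogH
      linarith
    linarith
  · push Not at hcase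
    obtain ⟨m, hm⟩ : ∃ m, n = m + 1 := ⟨n - 1, by omega⟩
    have hHC : (2 : ℝ) ^ κ ≤ H := by
      have h3 : (n1 : ℝ) ≤ max (n : ℝ) (H : ℝ) := le_trans (le_max_left _ _) hPC
      have h4 : (2 : ℝ) ^ κ ≤ max (n : ℝ) (H : ℝ) := le_trans (le_max_right _ _) hPC
      have h5 : (n : ℝ) < n1 := by exact_mod_cast hcase
      rcases max_cases (n : ℝ) (H : ℝ) with ⟨h6, _⟩ | ⟨h6, _⟩
      · rw [h6] at h3
        linarith
      · rwa [h6] at h4
    have hHC' : 2 ^ κ ≤ H := by exact_mod_cast hHC
    have hkκ : κ ≤ k := Nat.le_log_of_pow_le (by norm_num) hHC'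
    have hkm : kn m ≤ k := le_trans (Finset.le_sup (f := kn) (Finset.mem_range.2 (by omega))) hkκ
    have h3 := hkn m k hkm
    have hball : ξ ∈ ball (0 : ℝ) (((m + 1 : ℕ) + 1 : ℝ) + N1) := by
      rw [mem_ball, Real.dist_eq, sub_zero]
      have : (0 : ℝ) ≤ ((m + 1 : ℕ) : ℝ) := Nat.cast_nonneg _
      linarith
    by_contra hcon
    push Not at hcon
    apply h3
    refine ⟨hball, P, by omega, hk1, hk2, ?_⟩
    refine hcon.trans (le_of_eq ?_)
    congr 1
    rw [hm]
    push_cast
    ring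

end

end Pool.Agent.Results.MP_c5a493_nt.UniformBound
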